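import Pool.Agent.H773.CS.Stm
set_option autoImplicit false

open Finset

namespace Pool.Agent.H195.CS

open Pool.Agent.H773.CS

lemma zf_val {P : ℕ} [NeZero P] (p : ZMod P) : (zf p).val = p.val / 2 := by
  unfold zf
  rw [ZMod.val_natCast]
  have := p.val_lt
  exact Nat.mod_eq_of_lt (by omega)

lemma rf_val {P : ℕ} [NeZero P] (p : ZMod P) : (rf p).val = (p.val + P) / 2 := by
  unfold rf
  rw [ZMod.val_natCast]
  have := p.val_lt
  exact Nat.mod_eq_of_lt (by omega)

lemma zf_fib {P : ℕ} [NeZero P] (s : Finset (ZMod P)) (j : ZMod P) :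
    (s.filter (fun p => zf p = j)).card ≤ 2 := by
  classical
  refine (Finset.card_le_card (t := {((2 * j.val : ℕ) : ZMod P), ((2 * j.val + 1 : ℕ) : ZMod P)})
    ?_).trans Finset.card_le_two
  intro p hp
  rw [Finset.mem_filter] at hp
  have h1 := zf_val p
  rw [hp.2] at h1
  rw [Finset.mem_insert, Finset.mem_singleton, ← ZMod.natCast_zmod_val p]
  rcases Nat.even_or_odd' p.val with ⟨k, hk | hk⟩
  · left
    congr 1
    omega
  · right
    congr 1
    omega

lemma rf_fib {P : ℕ} [NeZero P] (s : Finset (ZMod P)) (j : ZMod P) :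
    (s.filter (fun p => rf p = j)).card ≤ 2 := by
  classical
  refine (Finset.card_le_card (t := {((2 * j.val - P : ℕ) : ZMod P),
    ((2 * j.val + 1 - P : ℕ) : ZMod P)}) ?_).trans Finset.card_le_two
  intro p hp
  rw [Finset.mem_filter] at hp
  have h1 := rf_val p
  rw [hp.2] at h1
  rw [Finset.mem_insert, Finset.mem_singleton, ← ZMod.natCast_zmod_val p]
  rcases Nat.even_or_odd' (p.val + P) with ⟨k, hk | hk⟩
  · left
    congr 1
    omega
  · right
    congr 1
    omega

theorem t_D : S_D := by
  classical
  intro P _ _ g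
  set d : ZMod P → ZMod 2 := fun j => g (j, false) + g (j, true) with hd
  set Q : ZMod P × Bool → Prop := fun v => g v = g (zf v.1, false) + g (zf v.1, true) ∧
     g v = g (rf v.1, false) + g (rf v.1, true) + 1 with hQ
  set G : Finset (ZMod P) := univ.filter (fun p => Q (p, false) ∧ Q (p, true)) with hG
  set M : Finset (ZMod P) := univ.filter (fun j => d j ≠ 0) with hM
  have hcP : (univ : Finset (ZMod P)).card = P := by rw [Finset.card_univ, ZMod.card]
  -- the count
  have h1 : (univ.filter Q).card ≤ P + G.card := by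
    rw [Finset.card_filter, Fintype.sum_prod_type]
    have h2 : ∀ p : ZMod P, (∑ c : Bool, if Q (p, c) then 1 else 0) ≤
        1 + (if Q (p, false) ∧ Q (p, true) then 1 else 0) := by
      intro p
      rw [Fintype.sum_bool]
      by_cases ha : Q (p, true) <;> by_cases hb : Q (p, false) <;> simp [ha, hb]
    refine (Finset.sum_le_sum fun p _ => h2 p).trans ?_
    rw [Finset.sum_add_distrib, ← Finset.card_filter]
    simp [hG]
  -- good points have d = 0
  have h3 : G.card + M.card ≤ P := by
    have hdj : Disjoint G M := by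
      rw [Finset.disjoint_left]
      intro p hp hp'
      rw [hG, Finset.mem_filter] at hp
      rw [hM, Finset.mem_filter] at hp'
      apply hp'.2
      show g (p, false) + g (p, true) = 0
      rw [hp.2.1.1, hp.2.2.1]
      exact CharTwo.add_self_eq_zero _
    have hu := Finset.card_le_card (Finset.subset_univ (G ∪ M))
    rw [Finset.card_union_of_disjoint hdj, hcP] at hu
    exact hu
  have h4 : G.card ≤ 4 * M.card := by
    have h5 : G ⊆ univ.filter (fun p => d (zf p) ≠ 0) ∪ univ.filter (fun p => d (rf p) ≠ 0) := by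
      intro p hp
      rw [hG, Finset.mem_filter] at hp
      rw [Finset.mem_union, Finset.mem_filter, Finset.mem_filter]
      have e1 : d (zf p) = d (rf p) + 1 := hp.2.1.1.symm.trans hp.2.1.2
      by_contra hcon
      push Not at hcon
      have e2 := hcon.1 (Finset.mem_univ _)
      have e3 := hcon.2 (Finset.mem_univ _)
      rw [e2, e3] at e1
      exact absurd e1 (by decide)
    have h6 : (univ.filter (fun p : ZMod P => d (zf p) ≠ 0)).card ≤ 2 * M.card := by
      refine Finset.card_le_mul_card_image_of_maps_to (f := zf) ?_ 2 ?_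
      · intro p hp
        rw [Finset.mem_filter] at hp
        rw [hM, Finset.mem_filter]
        exact ⟨Finset.mem_univ _, hp.2⟩
      · intro j _
        exact zf_fib _ j
    have h7 : (univ.filter (fun p : ZMod P => d (rf p) ≠ 0)).card ≤ 2 * M.card := by
      refine Finset.card_le_mul_card_image_of_maps_to (f := rf) ?_ 2 ?_
      · intro p hp
        rw [Finset.mem_filter] at hp
        rw [hM, Finset.mem_filter]
        exact ⟨Finset.mem_univ _, hp.2⟩
      · intro j _
        exact rf_fib _ j
    have h8 := (Finset.card_le_card h5).trans (Finset.card_union_le _ _)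
    omega
  have h9 : 5 * (univ.filter Q).card ≤ 9 * P := by omega
  have h10 : (5 : ℝ) * ((univ.filter Q).card : ℝ) ≤ 9 * P := by exact_mod_cast h9
  have h11 : ((univ.filter Q).card : ℝ) ≤ 9 / 10 * (2 * P) := by linarith
  convert h11 using 3

end Pool.Agent.H195.CS
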